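import Pool.Agent.TH971.SP.B3
import Pool.Agent.W282.LF.Top

/-!
# MP_dd1803_nt: Zilber-Pink in split semiabelian varieties for a positive proportion of all rational
maps `𝔖 ⇢ ℂ^m` and pull-backs of arbitrary varieties, in particular for complete intersections

Let `E_i : y² = x³ + A_i x + B_i`, `i = 1, …, n`, be arbitrary elliptic curves over the complex
numbers and let `𝔖 = E_1^(q_1) × … × E_n^(q_n) × G_m^k` (`Amb`), of dimension
`N = q_1 + … + q_n + k`. The coordinates of a point `(P, u)` of `𝔖` are the numbers `x(P_{i,l})` (in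
`P¹`) and `u_w`.

A vector `c` of integers gives `m` numerators `N_j` and `m` denominators `M_j`, polynomials of
multidegree `D` in all the `N` coordinates, `N_j = ∑_e c(j, 0, e) x^e` and `M_j = ∑_e c(j, 1, e) x^e`
with all exponent vectors `e ≤ D`, and the rational map `F_c = (N_1 / M_1, …, N_m / M_m)` from `𝔖` to
`ℂ^m`. We suppose that `D ≥ 1`, and that `D ≥ q_i` for the coordinates which belong to `E_i`.

Let `V` be any irreducible subvariety of `ℂ^m` over the complex numbers, of any dimension `d`. Let
`X_c = pullback c V` be the closed set of all points of `𝔖` at which the multihomogenizations of the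
polynomials in the ideal of `V` vanish, evaluated at `N_j, M_j`. It contains the closure of the
pull-back `F_c⁻¹(V)`. For `V = {0}` it is the complete intersection `N_1 = … = N_m = 0` in `𝔖`.
Every component of `X_c` has dimension at least `N - (m - d)` (outside of the common zeros of
`N_j` and `M_j` for some `j`, and everywhere for `V = {0}`).

Theorem: for a positive proportion of the vectors `c` (in every box, in every residue class) `X_c` has
no atypical intersections with special subvarieties: for every `ρ` every irreducible closed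
subset of the intersection of `X_c` with the union `𝔖^[≥ ρ]` of the algebraic subgroups of
codimension at least `ρ` of `𝔖` has dimension at most `N - (m - d) - ρ`. For `ρ = 0` it follows that
`X_c` has the expected dimension `N - (m - d)`, if it is not empty, and for `ρ > N - (m - d)` that
it does not meet `𝔖^[≥ ρ]`.

An algebraic subgroup of `𝔖` of codimension `ρ` is given, up to torsion, by modules of relations
`∑_l c_l P_{i,l} = 0` over the rings of endomorphisms of the `E_i` (`ℤ`, or an order in an imaginary
quadratic field if `E_i` has complex multiplication), and a group of multiplicative relations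
between the `u_w`, if the `E_i` are pairwise not isogenous: `ρ` is the sum of the ranks (see
`InSpecial`). (Every product of elliptic curves and `G_m`'s is isogenous to such an `𝔖`. The theorem
is true for all `E_i`, but if they are isogenous, `InSpecial` does not give all the subgroups.)
-/

namespace Pool.Agent.Results.MP_dd1803_nt.RandomMaps

open MvPolynomial Pool.Agent.W282.ZP

/-- The curve `y² = x³ + a x + b` over the complex numbers. -/
abbrev curve (a b : ℂ) : WeierstrassCurve.Affine ℂ := ⟨0, 0, 0, a, b⟩

/-- The `x`-coordinate of a point of the curve (`0` for the origin). -/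
def xCoord {a b : ℂ} : (curve a b).Point → ℂ
  | .zero => 0
  | .some x _ _ => x

/-- The map `φ` of the points of the curve `y² = x³ + a x + b` to itself is given on the
`x`-coordinates by a rational function `u / w` with `u(x) / w(x) ~ x / c²` for `x → ∞`. -/
def ActsByRational {a b : ℂ} (c : ℂ) (φ : (curve a b).Point → (curve a b).Point) : Prop :=
  ∃ u w : Polynomial ℂ, w ≠ 0 ∧ u.natDegree = w.natDegree + 1 ∧
    w.leadingCoeff = c ^ 2 * u.leadingCoeff ∧
    ∀ P : (curve a b).Point, P ≠ 0 → w.eval (xCoord P) ≠ 0 →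
      φ P ≠ 0 ∧ xCoord (φ P) * w.eval (xCoord P) = u.eval (xCoord P)

/-- A ring of endomorphisms of the curve `y² = x³ + a x + b`: a ring `O` of complex numbers which
acts on the group of points. For an endomorphism which is multiplication by `λ` on the tangent space
at the origin the number `λ` is an integer or an imaginary quadratic integer, in particular it
satisfies an equation `λ² - T λ + N = 0` with integers `T, N`, and if it is not an integer, the
`x`-coordinate of the image of a point is a rational function `u / w` of the `x`-coordinate of the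
point, with `u(x) / w(x) ~ x / λ²` for `x → ∞`. (The integers in `O` act by multiplication, as `act`
is a homomorphism of rings.) -/
structure EndRing (a b : ℂ) where
  /-- the ring -/
  O : Subring ℂ
  /-- its action on the points -/
  act : O →+* AddMonoid.End (curve a b).Point
  quad : ∀ c : O, ∃ T N : ℤ, (c : ℂ) ^ 2 - T * c + N = 0
  rat : ∀ c : O, (∀ n : ℤ, (c : ℂ) ≠ n) → ActsByRational c (act c)

/-- The linear combination `∑ c_l (P_l)` of points with endomorphisms `c_l` as coefficients. -/
noncomputable def EndRing.comb {a b : ℂ} (E : EndRing a b) {q : ℕ} (c : Fin q → E.O)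
    (P : Fin q → (curve a b).Point) : (curve a b).Point :=
  ∑ l, E.act (c l) (P l)

/-- The coefficients `c_1, …, c_q` are a relation between the points `P_1, …, P_q` up to torsion:
the point `∑ c_l (P_l)` is a torsion point. -/
def EndRing.Relation {a b : ℂ} (E : EndRing a b) {q : ℕ} (c : Fin q → E.O)
    (P : Fin q → (curve a b).Point) : Prop :=
  ∃ t : ℕ, 0 < t ∧ t • E.comb c P = 0

/-- The point `(P_1, …, P_q)` of the `q`-th power of the curve is in an algebraic subgroup of
codimension at least `ρ`: the module of the relations between the `P_l` over some ring of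
endomorphisms of the curve has rank at least `ρ`, it has `ρ` linearly independent elements. -/
def InSubgroup {a b : ℂ} {q : ℕ} (P : Fin q → (curve a b).Point) (ρ : ℕ) : Prop :=
  ∃ (E : EndRing a b) (c : Fin ρ → Fin q → E.O),
    LinearIndependent ℂ (fun i l => (c i l : ℂ)) ∧ ∀ i, E.Relation (c i) P

/-- The point `(u_1, …, u_k)` of `G_m^k` is in an algebraic subgroup of codimension at least `ρ`: there
are `ρ` linearly independent vectors `a` such that `∏ u_w ^ (a_w)` is a root of unity. -/
def InSubtorus {k : ℕ} (u : Fin k → ℂ) (ρ : ℕ) : Prop :=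
  ∃ a : Fin ρ → Fin k → ℤ, LinearIndependent ℤ a ∧
    ∀ i, ∃ t : ℕ, 0 < t ∧ (∏ w, u w ^ a i w) ^ t = 1

/-- The complex points of `𝔖 = E_1^(q_1) × … × E_n^(q_n) × G_m^k`, with
`E_i : y² = x³ + A_i x + B_i`. -/
structure Amb {n : ℕ} (A B : Fin n → ℂ) (q : Fin n → ℕ) (k : ℕ) where
  /-- the points `P_{i,l}` of `E_i` -/
  P : ∀ i, Fin (q i) → (curve (A i) (B i)).Point
  /-- the coordinates `u_w` in `G_m^k` -/
  u : Fin k → ℂ
  ne_zero : ∀ w, u w ≠ 0

/-- The index set of the coordinates `x(P_{i,l})` and `u_w`. -/
abbrev Ind {n : ℕ} (q : Fin n → ℕ) (k : ℕ) : Type := ((i : Fin n) × Fin (q i)) ⊕ Fin k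

variable {n : ℕ} {q : Fin n → ℕ} {k : ℕ} {A B : Fin n → ℂ}

/-- The coordinates `x(P_{i,l})` (`0` if `P_{i,l}` is the origin) and `u_w` of a point. -/
def Amb.coord (z : Amb A B q k) : Ind q k → ℂ :=
  Sum.elim (fun j => xCoord (z.P j.1 j.2)) z.u

open Classical in
/-- The coordinates as points of the projective line, with homogeneous coordinates `(x : 1)`, and
`(1 : 0)` for the origin of `E_i`. -/
noncomputable def Amb.homog (z : Amb A B q k) : Ind q k → ℂ × ℂ :=
  Sum.elim (fun j => if z.P j.1 j.2 = 0 then (1, 0) else (xCoord (z.P j.1 j.2), 1))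
    (fun w => (z.u w, 1))

/-- The coefficient vectors of the rational maps of multidegree `D` from `𝔖` to `ℂ^m`: the
coefficient of the monomial with exponent vector `e` in the numerator (`0`) and in the
denominator (`1`) of the `j`-th component. -/
abbrev Coeffs (m : ℕ) (D : Ind q k → ℕ) : Type := Fin m × Fin 2 × ((i : Ind q k) → Fin (D i + 1)) → ℤ

/-- The value of the numerator (`s = 0`) or denominator (`s = 1`) of the `j`-th component at the
point with homogeneous coordinates `((h i).1 : (h i).2)`: the form of multidegree `D`. -/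
def form {m : ℕ} {D : Ind q k → ℕ} (c : Coeffs m D) (s : Fin 2) (h : Ind q k → ℂ × ℂ)
    (j : Fin m) : ℂ :=
  ∑ e : (i : Ind q k) → Fin (D i + 1),
    (c (j, s, e) : ℂ) * ∏ i, ((h i).1 ^ (e i : ℕ) * (h i).2 ^ (D i - (e i : ℕ)))

/-- The pull-back of `V`: the points at which the multihomogenizations of all the polynomials `f` in
the ideal of `V` vanish, evaluated at the values of the numerators and denominators. -/
def pullback {m : ℕ} {D : Ind q k → ℕ} (c : Coeffs m D) (V : Set (Fin m → ℂ)) :
    Set (Amb A B q k) :=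
  {z | ∀ f ∈ idealOf V, ∑ a ∈ f.support, f.coeff a * ∏ j, (form c 0 z.homog j ^ (a j) *
    form c 1 z.homog j ^ (f.degreeOf j - a j)) = 0}

/-- The point `z` is in an algebraic subgroup of `𝔖` of codimension at least `ρ` (the product of
algebraic subgroups of the powers of the `E_i` and of `G_m^k`). -/
def InSpecial (z : Amb A B q k) (ρ : ℕ) : Prop :=
  ∃ (r : Fin n → ℕ) (s : ℕ), ρ ≤ ∑ i, r i + s ∧ (∀ i, InSubgroup (z.P i) (r i)) ∧
    InSubtorus z.u s

/-- For all `ρ` every irreducible closed subset of `X ∩ 𝔖^[≥ ρ]` has dimension at most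
`N + d - m - ρ`, where `N = dim 𝔖`. More precisely, let `W` be an irreducible closed set of vectors,
such that all vectors in `W` outside of some hypersurface `p = 0`, which does not contain `W`, are
the vectors of coordinates (numbered in any way) of points of `X ∩ 𝔖^[≥ ρ]`. Then
`dim W + ρ + m ≤ N + d`. -/
def NoAtypical (X : Set (Amb A B q k)) (m : ℕ) (d : Cardinal) : Prop :=
  ∀ (ρ s : ℕ) (e : Fin s ≃ Ind q k) (W : Set (Fin s → ℂ)) (p : MvPolynomial (Fin s) ℂ),
    (∀ w ∈ W, eval w p ≠ 0 → ∃ z ∈ X, InSpecial z ρ ∧ ∀ i, w i = z.coord (e i)) →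
    zcl W ⊆ W → (idealOf W).IsPrime → p ∉ idealOf W →
    zdim W + (ρ : Cardinal) + (m : Cardinal) ≤ (s : Cardinal) + d

theorem xCoord_eq {a b : ℂ} (P : (curve a b).Point) :
    xCoord P = Pool.Agent.W466.EP.xx (A := a) (B := b) P := by
  rcases P with _ | ⟨x, y, h⟩
  · rfl
  · rfl

/-- the ring of endomorphisms as in the helper files -/
def toE {a b : ℂ} (E : EndRing a b) : Pool.Agent.TH971.RF.EndRing a b where
  O := E.O
  act := E.act
  quad := E.quad
  rat := by
    intro c hc
    obtain ⟨u, w, h1, h2, h3, h4⟩ := E.rat c hc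
    refine ⟨u, w, h1, h2, h3, fun P hP hw => ?_⟩
    have e1 : xCoord (a := a) (b := b) P = Pool.Agent.W466.EP.xx (A := a) (B := b) P := xCoord_eq P
    have hw' : w.eval (xCoord (a := a) (b := b) P) ≠ 0 := by rw [e1]; exact hw
    have h5 := h4 P hP hw'
    have e2 : xCoord (a := a) (b := b) (E.act c P) =
      Pool.Agent.W466.EP.xx (A := a) (B := b) (E.act c P) := xCoord_eq _
    rw [e1, e2] at h5
    exact h5

/-- the module of the relations -/
def relMod {a b : ℂ} (E : EndRing a b) {q : ℕ} (P : Fin q → (curve a b).Point) :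
    Submodule E.O (Fin q → E.O) where
  carrier := {c | E.Relation c P}
  zero_mem' := ⟨1, one_pos, by simp [EndRing.comb]⟩
  add_mem' := by
    rintro c c' ⟨t, ht, h⟩ ⟨t', ht', h'⟩
    refine ⟨t * t', Nat.mul_pos ht ht', ?_⟩
    have e1 : E.comb (c + c') P = E.comb c P + E.comb c' P := by
      unfold EndRing.comb
      rw [← Finset.sum_add_distrib]
      refine Finset.sum_congr rfl fun l _ => ?_
      rw [Pi.add_apply, map_add]
      rfl
    rw [e1, nsmul_add, mul_nsmul, h, mul_comm t t', mul_nsmul, h', nsmul_zero, nsmul_zero, add_zero]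
  smul_mem' := by
    rintro r c ⟨t, ht, h⟩
    refine ⟨t, ht, ?_⟩
    have e1 : E.comb (r • c) P = E.act r (E.comb c P) := by
      simp [EndRing.comb, map_sum]
    rw [e1, ← map_nsmul, h, map_zero]

theorem le_finrank {a b : ℂ} (E : EndRing a b) {q ρ : ℕ} (P : Fin q → (curve a b).Point)
    (c : Fin ρ → Fin q → E.O) (hc : LinearIndependent ℂ (fun i l => (c i l : ℂ)))
    (h : ∀ i, E.Relation (c i) P) : ρ ≤ Module.finrank E.O (relMod E P) := by
  have h1 : LinearIndependent E.O (fun i => (⟨c i, h i⟩ : relMod E P)) := by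
    rw [Fintype.linearIndependent_iff] at hc ⊢
    intro g hg i
    have h2 : ∑ i, (g i : ℂ) • (fun l => (c i l : ℂ)) = 0 := by
      funext l
      have h3 := congrArg (fun v : relMod E P => (((v : Fin q → E.O) l : E.O) : ℂ)) hg
      simpa [Finset.sum_apply] using h3
    exact_mod_cast hc _ h2 i
  have h2 := h1.cardinal_le_rank
  have h3 : Module.rank E.O (relMod E P) < Cardinal.aleph0 := by
    refine (Submodule.rank_le _).trans_lt ?_
    rw [rank_fun']
    exact Cardinal.natCast_lt_aleph0
  have h4 := Cardinal.toNat_le_toNat h2 h3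
  simpa [Module.finrank] using h4

/-- the group of the multiplicative relations -/
def relTor {k : ℕ} (u : Fin k → ℂ) (hu : ∀ w, u w ≠ 0) : Submodule ℤ (Fin k → ℤ) where
  carrier := {a | ∃ t : ℕ, 0 < t ∧ (∏ w, u w ^ a w) ^ t = 1}
  zero_mem' := ⟨1, one_pos, by simp⟩
  add_mem' := by
    rintro a a' ⟨t, ht, h⟩ ⟨t', ht', h'⟩
    refine ⟨t * t', Nat.mul_pos ht ht', ?_⟩
    have e1 : ∏ w, u w ^ (a + a') w = (∏ w, u w ^ a w) * ∏ w, u w ^ a' w := by
      rw [← Finset.prod_mul_distrib]
      exact Finset.prod_congr rfl fun w _ => zpow_add₀ (hu w) _ _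
    rw [e1, mul_pow, pow_mul, h, mul_comm t t', pow_mul, h', one_pow, one_pow, one_mul]
  smul_mem' := by
    rintro z a ⟨t, ht, h⟩
    refine ⟨t, ht, ?_⟩
    have e1 : ∏ w, u w ^ (z • a) w = (∏ w, u w ^ a w) ^ z := by
      rw [← Finset.prod_zpow]
      refine Finset.prod_congr rfl fun w _ => ?_
      rw [Pi.smul_apply, smul_eq_mul, mul_comm, zpow_mul]
    rw [e1, ← zpow_natCast, ← zpow_mul, mul_comm z, zpow_mul, zpow_natCast, h, one_zpow]

theorem le_finrank_tor {k ρ : ℕ} (u : Fin k → ℂ) (hu : ∀ w, u w ≠ 0) (a : Fin ρ → Fin k → ℤ)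
    (ha : LinearIndependent ℤ a) (h : ∀ i, ∃ t : ℕ, 0 < t ∧ (∏ w, u w ^ a i w) ^ t = 1) :
    ρ ≤ Module.finrank ℤ (relTor u hu) := by
  have h1 : LinearIndependent ℤ (fun i => (⟨a i, h i⟩ : relTor u hu)) :=
    LinearIndependent.of_comp (relTor u hu).subtype ha
  have h2 := h1.fintype_card_le_finrank
  rwa [Fintype.card_fin] at h2

/-- For every irreducible `V ⊂ ℂ^m`, every multidegree `D ≥ 1` with `D_i ≥ q` for the coordinates which
belong to a factor `E^q` of `𝔖`, in every residue class modulo any `Q₀` and in every box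
`H u + [-ε H, ε H]^N` there is a positive proportion of integer vectors `c` for which the pull-back
of `V` to `𝔖` has no atypical intersections. -/
theorem result {n : ℕ} (A B : Fin n → ℂ) (q : Fin n → ℕ) (k m : ℕ) (V : Set (Fin m → ℂ))
    (hV : (idealOf V).IsPrime) (D : Ind q k → ℕ) (hD : ∀ i, 0 < D i)
    (hDq : ∀ j : (i : Fin n) × Fin (q i), q j.1 ≤ D (Sum.inl j)) (Q₀ : ℕ) (hQ₀ : 0 < Q₀)
    (c₀ : Coeffs m D) (u : Fin m × Fin 2 × ((i : Ind q k) → Fin (D i + 1)) → ℝ) (ε : ℝ)
    (hε : 0 < ε) :
    ∃ δ : ℝ, 0 < δ ∧ ∀ᶠ H : ℕ in Filter.atTop,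
      δ * (H : ℝ) ^ (Fintype.card (Fin m × Fin 2 × ((i : Ind q k) → Fin (D i + 1)))) ≤
        Nat.card {c : Coeffs m D // (∀ i, |(c i : ℝ) - H * u i| ≤ ε * H) ∧
          (∀ i, (Q₀ : ℤ) ∣ c i - c₀ i) ∧
          NoAtypical (A := A) (B := B) (pullback c V) m (zdim V)} := by
  classical
  have hfin : Algebra.trdeg ℂ (MvPolynomial (Fin m) ℂ ⧸ idealOf V) < Cardinal.aleph0 :=
    trdeg_lt_aleph0_of_finiteType
  obtain ⟨d, hd⟩ := Cardinal.lt_aleph0.1 hfin
  obtain ⟨K, Q, G, hK, hQ, hmain⟩ := Pool.Agent.TH971.SP.exists_class' (q := q) (k := k) A B D hD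
    hDq (idealOf V) hd Q₀ hQ₀ c₀
  refine pos_proportion' Q hQ G _ (fun c hc => ?_) u ε hε
  obtain ⟨hc0, hkey⟩ := hmain c hc
  refine ⟨hc0, ?_⟩
  intro ρ s e W p hW hcl hprime hp
  obtain ⟨w, hwW, hpw, T, hT, hdimW⟩ :=
    Pool.Agent.W282.LF.generic_dim_open K W hprime hcl p hp
  obtain ⟨z, hzX, ⟨r, s', hρ, hE, a, ha, hau⟩, hwz⟩ := hW w hwW hpw
  choose E cc hcc hccP using hE
  have hco : Pool.Agent.TH971.SP.co (A := A) (B := B) z.P z.u = z.coord := by
    funext j
    rcases j with j | j
    · exact (xCoord_eq _).symm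
    · rfl
  have hho : Pool.Agent.TH971.SP.hco (A := A) (B := B) z.P z.u = z.homog := by
    funext j
    rcases j with j | j
    · by_cases h0 : z.P j.1 j.2 = 0
      · exact (if_pos h0).trans (if_pos h0).symm
      · refine (if_neg h0).trans (Eq.trans ?_ (if_neg h0).symm)
        rw [xCoord_eq]
    · rfl
  have hs : Fintype.card (Ind q k) = s := by
    rw [← Fintype.card_congr e, Fintype.card_fin]
  have h3 := hkey z.P z.u (by
      intro f hf
      rw [hho]
      exact hzX f hf) (fun i => toE (E i)) (fun i => relMod (E i) (z.P i)) (fun i a ha => ha)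
      (relTor z.u z.ne_zero) (fun a ha => ha) (T.map e.toEmbedding) (by
        rw [hco]
        have hT' : AlgebraicIndependent K (fun j : T => z.coord (e j)) := by
          convert hT using 1
          funext j
          exact (hwz j).symm
        let e' : (T.map e.toEmbedding : Finset (Ind q k)) ≃ T :=
          { toFun := fun j => ⟨e.symm j, by
              obtain ⟨t, ht, h⟩ := Finset.mem_map.1 j.2
              rw [← h]
              simpa using ht⟩
            invFun := fun j => ⟨e j, Finset.mem_map_of_mem _ j.2⟩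
            left_inv := fun j => by simp
            right_inv := fun j => by simp }
        have h5 := hT'.comp e' e'.injective
        convert h5 using 1
        funext j
        simp [e'])
  have h4 : ∀ i, r i ≤ Module.finrank (E i).O (relMod (E i) (z.P i)) := fun i =>
    le_finrank (E i) (z.P i) (cc i) (hcc i) (hccP i)
  have h5 := le_finrank_tor z.u z.ne_zero a ha hau
  have h6 : ∑ i, r i ≤ ∑ i, Module.finrank (E i).O (relMod (E i) (z.P i)) :=
    Finset.sum_le_sum fun i _ => h4 i
  have h7 : T.card + ∑ i, Module.finrank (E i).O (relMod (E i) (z.P i)) +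
      Module.finrank ℤ (relTor z.u z.ne_zero) + m ≤ s + d := by
    rw [Finset.card_map] at h3
    have hs' : Fintype.card (Pool.Agent.TH971.SP.Ix q k) = s := hs
    rw [hs'] at h3
    exact h3
  calc zdim W + (ρ : Cardinal) + (m : Cardinal)
      ≤ (T.card : Cardinal) + (ρ : Cardinal) + (m : Cardinal) := by gcongr
    _ = ((T.card + ρ + m : ℕ) : Cardinal) := by push_cast; rfl
    _ ≤ ((s + d : ℕ) : Cardinal) := by
      have : T.card + ρ + m ≤ s + d := by omega
      exact_mod_cast this
    _ = (s : Cardinal) + zdim V := by rw [zdim, hd]; push_cast; rfl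

end Pool.Agent.Results.MP_dd1803_nt.RandomMaps
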